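import Pool.Agent.H645R2.HT.Univ

/-!
A computable colouring of the positive integers with 8 colours all of whose infinite homogeneous
sets (already for sums of at most three distinct elements) compute the double jump `0''`.
-/

namespace Pool.Agent.Results.MP_69fea5_lc.DoubleJump

open Pool.Agent.H645R2.HT

/-- The characteristic function of a set of natural numbers, as a (total) partial function. -/
noncomputable def char (B : Set ℕ) : ℕ →. ℕ := by
  classical exact fun n => Part.some (if n ∈ B then 1 else 0)

/-- There is a computable colouring `c` of the positive integers with `8` colours such that every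
infinite set `X` of positive integers, all of whose sums of at most three distinct elements get
the same colour, computes every `Σ⁰₂` set of natural numbers (equivalently, computes `0''`). -/
theorem result :
    ∃ c : ℕ → Fin 8, Computable c ∧
      ∀ X : Set ℕ, X.Infinite → 0 ∉ X →
        (∃ i, ∀ F : Finset ℕ, (F : Set ℕ) ⊆ X → F.Nonempty → F.card ≤ 3 →
          c (∑ n ∈ F, n) = i) →
        ∀ R : ℕ → ℕ → ℕ → Bool, Computable (fun q : ℕ × ℕ × ℕ => R q.1 q.2.1 q.2.2) →
          TuringReducible (char {n | ∃ a, ∀ b, R n a b = true}) (char X) := by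
  classical
  refine ⟨fun n => pack3 (b0 n, C (g1 W0) n, C (g2 W0 p0) n), ?_, ?_⟩
  · have h1 : Computable pack3 := (Primrec.dom_finite pack3).to_comp
    refine h1.comp (c_b0.pair (Computable.pair (c_C (c_g1 c_W0)) (c_C ?_)))
    exact c_g2 c_W0 c_p0 (by fun_prop) (by fun_prop) (by fun_prop) (by fun_prop)
  · intro X hinf h0 hc R hR
    have hp := ps_of h0
    have hc' : Const3 (fun n => pack3 (b0 n, C (g1 W0) n, C (g2 W0 p0) n)) X := hc
    have hu := hc'.map unpack3
    simp only [unpack_pack3] at hu
    have hb0 : Const3 b0 X := hu.map fun q => q.1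
    have hb1 : Const3 (C (g1 W0)) X := hu.map fun q => q.2.1
    have hb2 : Const3 (C (g2 W0 p0)) X := hu.map fun q => q.2.2
    have hf := hb0.far hinf hp
    have hM := modOK mon_W0 hp hf (hb1.eq2 hp)
    obtain ⟨k1, k2⟩ := computes c_W0 c_p0 hp hf hM (hb2.eq3 hp)
    obtain ⟨e, he⟩ := sigma2_univ hR
    have h1 : Pool.Agent.Helper446.Oracle.REIn X
        (fun n => n ∈ {n | ∃ a, ∀ b, R n a b = true}) :=
      (k1.comp (f := fun n : ℕ => Nat.pair e n) (by fun_prop)).of_eq fun n => (he n).symm
    have h2 : Pool.Agent.Helper446.Oracle.REIn X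
        (fun n => n ∉ {n | ∃ a, ∀ b, R n a b = true}) :=
      (k2.comp (f := fun n : ℕ => Nat.pair e n) (by fun_prop)).of_eq fun n =>
        not_congr (he n).symm
    exact Pool.Agent.Helper446.Oracle.turingReducible_iff.2 ⟨h1, h2⟩

end Pool.Agent.Results.MP_69fea5_lc.DoubleJump
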