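import Mathlib
import Pool.Agent.H645R2.K.All
import Pool.Agent.H645R2.R.All

/-!
Over `RCA₀`, Hindman's theorem for 3 colours and sums of at most two terms is equivalent to
`ACA₀`.

`L2Structure` (structures for the language of second-order arithmetic, Henkin semantics),
`IsModelRCA0` and `ArithComp` are in `Pool.Agent.Helper617.RM.Defs` and
`Pool.Agent.Helper617.RM.HLDefs`.
-/

namespace Pool.Agent.Results.MP_69fea5_lc.ExactThreeColours

open Pool.Agent.Helper617.RM

universe u

/-- The sum, computed in the structure, of a (standard) finite list of numbers. -/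
def sumL (N : L2Structure.{u}) : List N.M → N.M
  | [] => N.zero
  | a :: l => N.add a (sumL N l)

/-- `FS^{≤ n}(X)`: the set of sums of at least one and at most `n` distinct elements of `X`. -/
def FSle (N : L2Structure.{u}) (n : ℕ) (X : Set N.M) : Set N.M :=
  {s | ∃ l : List N.M, l ≠ [] ∧ l.length ≤ n ∧ l.Nodup ∧ (∀ x ∈ l, x ∈ X) ∧ s = sumL N l}

/-- The principle `HT_{k → m}^{≤ n}` in the structure `N`: for every colouring `c` of the numbers
with `k` colours that exists in the structure (every colour class is one of the sets of the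
structure) there is an unbounded set `X` of the structure such that `c` takes at most `m` colours
on `FS^{≤ n}(X)`. For `m = 1` this is the principle `HT_k^{≤ n}`. -/
def HTc (N : L2Structure.{u}) (n k m : ℕ) : Prop :=
  ∀ c : N.M → Fin k, (∀ i, {x | c x = i} ∈ N.Sets) →
    ∃ X ∈ N.Sets, (∀ b, ∃ x ∈ X, N.lt b x) ∧
      ∃ S : Finset (Fin k), S.card ≤ m ∧ ∀ s ∈ FSle N n X, c s ∈ S

/-- In every model `N` of `RCA₀` the following are equivalent: arithmetical comprehension;
`HT_3^{≤ 2}`; for every `k`, every colouring with `k` colours has an unbounded set `X` such that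
`FS^{≤ 2}(X)` has at most `max 1 ⌊k/2⌋` colours. -/
theorem result (N : L2Structure.{u}) (hN : IsModelRCA0 N) :
    [ArithComp N, HTc N 2 3 1, ∀ k, HTc N 2 k (max 1 (k / 2))].TFAE := by
  have hsing : ∀ (X : Set N.M) (x : N.M), x ∈ X → x ∈ FSle N 2 X := by
    intro X x hx
    refine ⟨[x], by simp, by simp, by simp, by simpa using hx, ?_⟩
    exact (IsModelRCA0.ax_add_zero x).symm
  have hpair : ∀ (X : Set N.M) (x y : N.M), x ∈ X → y ∈ X → x ≠ y → x + y ∈ FSle N 2 X := by
    intro X x y hx hy hxy
    refine ⟨[x, y], by simp, by simp, by simpa using hxy, ?_, ?_⟩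
    · intro z hz
      simp only [List.mem_cons, List.not_mem_nil, or_false] at hz
      rcases hz with rfl | rfl <;> assumption
    · show x + y = N.add x (N.add y N.zero)
      rw [IsModelRCA0.ax_add_zero]
      rfl
  tfae_have 1 → 3 := by
    intro h k c hc
    have := sig1_of_arithComp h
    obtain ⟨S, hS, X, hX, hinf, h1, h2⟩ := Pool.Agent.H645R2.K.main N k c
      (fun j => D0.mem (Tm.var 0) (hc j))
    refine ⟨X, hX, hinf, S, hS, ?_⟩
    rintro s ⟨l, hl0, hl2, hnd, hlX, rfl⟩
    match l, hl0, hl2, hnd, hlX with
    | [], hl0, _, _, _ => exact absurd rfl hl0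
    | [x], _, _, _, hlX =>
      have e : sumL N [x] = x := IsModelRCA0.ax_add_zero x
      rw [e]
      exact h1 x (hlX x (by simp))
    | [x, y], _, _, hnd, hlX =>
      have e : sumL N [x, y] = x + y := by
        show N.add x (N.add y N.zero) = N.add x y
        rw [IsModelRCA0.ax_add_zero]
      rw [e]
      have hx := hlX x (by simp)
      have hy := hlX y (by simp)
      have hne : x ≠ y := by
        intro h
        subst h
        simp at hnd
      rcases lt_or_gt_of_ne hne with h | h
      · exact h2 x hx y hy h
      · rw [add_comm]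
        exact h2 y hy x hx h
    | x :: y :: z :: l, _, hl2, _, _ =>
      simp only [List.length_cons] at hl2
      omega
  tfae_have 3 → 2 := fun h => h 3
  tfae_have 2 → 1 := by
    intro h
    have hrev : Sig1 N := by
      refine Pool.Agent.H645R2.R.rev N fun C hC => ?_
      obtain ⟨X, hX, hinf, S, hS, hXS⟩ := h C (fun i => comp_D0 (P := fun x => C x = i) (hC i))
      rw [Finset.card_le_one] at hS
      refine ⟨X, hX, hinf, ?_, ?_⟩
      · intro x hx y hy
        exact hS _ (hXS _ (hsing X x hx)) _ (hXS _ (hsing X y hy))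
      · intro x hx y hy hxy
        exact hS _ (hXS _ (hpair X x y hx hy hxy.ne)) _ (hXS _ (hsing X x hx))
    exact arithComp_of_sig1
  tfae_finish

end Pool.Agent.Results.MP_69fea5_lc.ExactThreeColours
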