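import Pool.Agent.H645R2.HT.Univ

/-!
A computable colouring of the positive integers with 8 colours none of whose infinite homogeneous
sets (already for sums of at most three distinct elements) is `Σ⁰₃`.
-/

namespace Pool.Agent.Results.MP_69fea5_lc.NoSigmaThree

open Pool.Agent.H645R2.HT

/-- There is a computable colouring `c` of the positive integers with `8` colours such that no
infinite set `X` of positive integers, all of whose sums of at most three distinct elements get
the same colour, is `Σ⁰₃`. -/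
theorem result :
    ∃ c : ℕ → Fin 8, Computable c ∧
      ∀ X : Set ℕ, X.Infinite → 0 ∉ X →
        (∃ i, ∀ F : Finset ℕ, (F : Set ℕ) ⊆ X → F.Nonempty → F.card ≤ 3 →
          c (∑ n ∈ F, n) = i) →
        ∀ R : ℕ → ℕ → ℕ → ℕ → Bool,
          Computable (fun q : ℕ × ℕ × ℕ × ℕ => R q.1 q.2.1 q.2.2.1 q.2.2.2) →
          X ≠ {n | ∃ a, ∀ b, ∃ t, R n a b t = true} := by
  classical
  refine ⟨fun n => pack3 (b0 n, C (g1 W0) n, C (g3 W0) n), ?_, ?_⟩
  · have h1 : Computable pack3 := (Primrec.dom_finite pack3).to_comp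
    exact h1.comp (c_b0.pair (Computable.pair (c_C (c_g1 c_W0)) (c_C (c_g3 c_W0))))
  · intro X hinf h0 hc R hR hX
    have hp := ps_of h0
    have hc' : Const3 (fun n => pack3 (b0 n, C (g1 W0) n, C (g3 W0) n)) X := hc
    have hu := hc'.map unpack3
    simp only [unpack_pack3] at hu
    have hb0 : Const3 b0 X := hu.map fun q => q.1
    have hb1 : Const3 (C (g1 W0)) X := hu.map fun q => q.2.1
    have hb2 : Const3 (C (g3 W0)) X := hu.map fun q => q.2.2
    have hf := hb0.far hinf hp
    have hM := modOK mon_W0 hp hf (hb1.eq2 hp)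
    have h1 : REPred fun w : ℕ => ∃ t,
        R w.unpair.1 w.unpair.2.unpair.1 w.unpair.2.unpair.2 t = true := by
      refine Pool.Agent.Helper446.RE.exN (p := fun (w : ℕ) t =>
        R w.unpair.1 w.unpair.2.unpair.1 w.unpair.2.unpair.2 t = true) ?_
      refine Pool.Agent.Helper446.RE.eq ?_ (by fun_prop)
      exact hR.comp (g := fun x : ℕ × ℕ => (x.1.unpair.1, x.1.unpair.2.unpair.1,
        x.1.unpair.2.unpair.2, x.2)) (by fun_prop)
    obtain ⟨e, he⟩ := univ_W0 h1
    refine no_sigma3 hp hf hM (hb2.eq3 hp) e fun n => ?_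
    rw [hX]
    show (∃ a, ∀ b, ∃ t, R n a b t = true) ↔ ∃ a, Tr W0 e n a
    refine exists_congr fun a => ?_
    unfold Tr
    refine forall_congr' fun b => ?_
    rw [← he (Nat.pair n (Nat.pair a b))]
    simp only [Nat.unpair_pair]

end Pool.Agent.Results.MP_69fea5_lc.NoSigmaThree
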