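import Mathlib
import Pool.Agent.H161R5.HinDeg

set_option autoImplicit false

/-! Hindman's theorem has computable solutions for computable colourings of sublinear
`𝔽_p`-degree. -/

namespace Pool.Agent.Results.MP_69fea5_lc.SublinearDegree

open Pool.Agent.H161R5 MvPolynomial

/-- all `s + b y`, `s ∈ S`, `b < n + 2` -/
def nxt (n : ℕ) (S : List ℕ) (y : ℕ) : List ℕ :=
  S.flatMap fun s => (List.range (n + 2)).map fun b => s + b * y

/-- bounded check that all listed numbers have the colour of `0` -/
def chk (χ : ℕ → ℕ) (T : List ℕ) (k : ℕ) : Bool :=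
  Nat.rec true (fun i b => b && decide (χ ((T[i]?).getD 0) = χ 0)) k

theorem chk_iff (χ : ℕ → ℕ) (T : List ℕ) (k : ℕ) :
    chk χ T k = true ↔ ∀ i < k, χ ((T[i]?).getD 0) = χ 0 := by
  induction k with
  | zero => simp [chk]
  | succ k ih =>
    have : chk χ T (k + 1) = (chk χ T k && decide (χ ((T[k]?).getD 0) = χ 0)) := rfl
    rw [this, Bool.and_eq_true, ih, decide_eq_true_iff]
    constructor
    · rintro ⟨h1, h2⟩ i hi
      rcases Nat.lt_succ_iff_lt_or_eq.1 hi with h | rfl
      · exact h1 i h
      · exact h2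
    · intro h
      exact ⟨fun i hi => h i (by omega), h k (by omega)⟩

theorem chk_length (χ : ℕ → ℕ) (T : List ℕ) :
    chk χ T T.length = true ↔ ∀ s ∈ T, χ s = χ 0 := by
  rw [chk_iff]
  constructor
  · intro h s hs
    obtain ⟨i, hi, rfl⟩ := List.mem_iff_getElem.1 hs
    have := h i hi
    rwa [List.getElem?_eq_getElem hi] at this
  · intro h i hi
    rw [List.getElem?_eq_getElem hi]
    exact h _ (List.getElem_mem hi)

/-- the search predicate -/
def prd (χ : ℕ → ℕ) (a : ℕ × List ℕ) (y : ℕ) : Bool :=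
  !(chk χ a.2 a.2.length) ||
    (decide (a.2.sum < y) && chk χ (nxt a.1 a.2 y) (nxt a.1 a.2 y).length)

theorem nxt_primrec : Primrec fun a : (ℕ × List ℕ) × ℕ => nxt a.1.1 a.1.2 a.2 := by
  unfold nxt
  refine Primrec.list_flatMap (Primrec.snd.comp Primrec.fst) ?_
  refine Primrec.list_map ?_ ?_
  · exact Primrec.list_range.comp
      (Primrec.nat_add.comp (Primrec.fst.comp (Primrec.fst.comp Primrec.fst))
        (Primrec.const 2))
  · exact Primrec.nat_add.comp (Primrec.snd.comp Primrec.fst)
      (Primrec.nat_mul.comp Primrec.snd (Primrec.snd.comp (Primrec.fst.comp Primrec.fst)))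

theorem sum_primrec : Primrec fun a : List ℕ => a.sum := by
  have : Primrec fun a : List ℕ => a.foldr (fun b s => b + s) 0 := by
    refine Primrec.list_foldr (f := fun a : List ℕ => a) (g := fun _ => 0)
      (h := fun _ (z : ℕ × ℕ) => z.1 + z.2) Primrec.id (Primrec.const 0) ?_
    exact Primrec.nat_add.comp (Primrec.fst.comp Primrec.snd) (Primrec.snd.comp Primrec.snd)
  exact this

theorem chk_computable {χ : ℕ → ℕ} (hχ : Computable χ) :
    Computable fun a : List ℕ × ℕ => chk χ a.1 a.2 := by
  unfold chk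
  refine Computable.nat_rec (f := fun a : List ℕ × ℕ => a.2) (g := fun _ => true)
    (h := fun a z => z.2 && decide (χ ((a.1[z.1]?).getD 0) = χ 0))
    Computable.snd (Computable.const true) ?_
  have h1 : Computable fun z : (List ℕ × ℕ) × (ℕ × Bool) => χ ((z.1.1[z.2.1]?).getD 0) := by
    refine hχ.comp ?_
    refine Primrec.to_comp ?_
    exact Primrec.option_getD.comp
      (Primrec.list_getElem?.comp (Primrec.fst.comp Primrec.fst)
        (Primrec.fst.comp Primrec.snd)) (Primrec.const 0)
  have h2 : Computable fun z : (List ℕ × ℕ) × (ℕ × Bool) =>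
      decide (χ ((z.1.1[z.2.1]?).getD 0) = χ 0) := by
    have h3 : Computable fun n : ℕ × ℕ => decide (n.1 = n.2) :=
      (Primrec.eq (α := ℕ)).decide.to_comp
    exact h3.comp (h1.pair (Computable.const (χ 0)))
  have h4 : Computable fun z : Bool × Bool => (z.1 && z.2) := Primrec.and.to_comp
  exact h4.comp ((Computable.snd.comp Computable.snd).pair h2)

theorem nxt_computable : Computable fun a : (ℕ × List ℕ) × ℕ => nxt a.1.1 a.1.2 a.2 :=
  nxt_primrec.to_comp

attribute [local irreducible] chk nxt in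
theorem prd_computable {χ : ℕ → ℕ} (hχ : Computable χ) : Computable₂ (prd χ) := by
  have hc := chk_computable hχ
  have h1 : Computable fun z : (ℕ × List ℕ) × ℕ => chk χ z.1.2 z.1.2.length :=
    hc.comp ((Computable.snd.comp Computable.fst).pair
      (Computable.list_length.comp (Computable.snd.comp Computable.fst)))
  have hn := nxt_computable
  have h2 : Computable fun z : (ℕ × List ℕ) × ℕ =>
      chk χ (nxt z.1.1 z.1.2 z.2) (nxt z.1.1 z.1.2 z.2).length :=
    hc.comp (hn.pair (Computable.list_length.comp hn))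
  have h3 : Computable fun z : (ℕ × List ℕ) × ℕ => decide (z.1.2.sum < z.2) := by
    have h4 : Primrec fun n : ℕ × ℕ => decide (n.1 < n.2) := Primrec.nat_lt.decide
    exact (h4.comp ((sum_primrec.comp (Primrec.snd.comp Primrec.fst)).pair
      Primrec.snd)).to_comp
  have h5 : Computable fun z : (Bool × Bool) × Bool => (!z.1.1 || (z.1.2 && z.2)) := by
    refine Primrec.to_comp ?_
    exact Primrec.or.comp (Primrec.not.comp (Primrec.fst.comp Primrec.fst))
      (Primrec.and.comp (Primrec.snd.comp Primrec.fst) Primrec.snd)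
  exact h5.comp ((h1.pair h3).pair h2)

variable {p : ℕ} [Fact p.Prime]

theorem prd_exists {χ : ℕ → ℕ} (h : Sublinear p χ) (a : ℕ × List ℕ) :
    ∃ y, prd χ a y = true := by
  by_cases hc : chk χ a.2 a.2.length = true
  · obtain ⟨y, hy, hy'⟩ := exists_next h a.2 a.1 a.2.sum
    refine ⟨y, ?_⟩
    unfold prd
    rw [hc, Bool.not_true, Bool.false_or, Bool.and_eq_true, decide_eq_true_iff]
    refine ⟨hy, ?_⟩
    rw [chk_length] at hc ⊢
    intro s hs
    unfold nxt at hs
    rw [List.mem_flatMap] at hs
    obtain ⟨u, hu, hs⟩ := hs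
    rw [List.mem_map] at hs
    obtain ⟨b, hb, rfl⟩ := hs
    rw [hy' u hu b (List.mem_range.1 hb)]
    exact hc u hu
  · refine ⟨0, ?_⟩
    unfold prd
    rw [Bool.not_eq_true] at hc
    rw [hc]
    rfl

/-- the least witness -/
noncomputable def fnd {χ : ℕ → ℕ} (h : Sublinear p χ) (a : ℕ × List ℕ) : ℕ :=
  Nat.find (prd_exists h a)

theorem fnd_computable {χ : ℕ → ℕ} (hχ : Computable χ) (h : Sublinear p χ) :
    Computable (fnd h) := by
  have h1 : Partrec fun a : ℕ × List ℕ => Nat.rfind fun y => Part.some (prd χ a y) :=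
    Partrec.rfind (p := fun a y => Part.some (prd χ a y)) (prd_computable hχ).partrec₂
  refine h1.of_eq_tot fun a => ?_
  refine Nat.mem_rfind.2 ⟨?_, fun {m} hm => ?_⟩
  · rw [Part.mem_some_iff]
    exact (Nat.find_spec (prd_exists h a)).symm
  · rw [Part.mem_some_iff]
    have := Nat.find_min (prd_exists h a) hm
    rw [Bool.not_eq_true] at this
    exact this.symm

/-- the lists of all finite sums so far -/
noncomputable def lst {χ : ℕ → ℕ} (h : Sublinear p χ) (n : ℕ) : List ℕ :=
  Nat.rec [0] (fun n S => nxt n S (fnd h (n, S))) n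

attribute [local irreducible] nxt in
theorem lst_computable {χ : ℕ → ℕ} (hχ : Computable χ) (h : Sublinear p χ) :
    Computable (lst h) := by
  refine Computable.nat_rec (f := fun n : ℕ => n) (g := fun _ => [0])
    (h := fun _ z => nxt z.1 z.2 (fnd h (z.1, z.2))) Computable.id (Computable.const [0]) ?_
  have hn := nxt_computable
  exact hn.comp (Computable.snd.pair ((fnd_computable hχ h).comp Computable.snd))

theorem lst_succ {χ : ℕ → ℕ} (h : Sublinear p χ) (n : ℕ) :
    lst h (n + 1) = nxt n (lst h n) (fnd h (n, lst h n)) := rfl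

theorem mem_nxt {n : ℕ} {S : List ℕ} {y s b : ℕ} (hs : s ∈ S) (hb : b < n + 2) :
    s + b * y ∈ nxt n S y := by
  unfold nxt
  rw [List.mem_flatMap]
  exact ⟨s, hs, List.mem_map.2 ⟨b, List.mem_range.2 hb, rfl⟩⟩

theorem lst_spec {χ : ℕ → ℕ} (h : Sublinear p χ) (n : ℕ) : ∀ s ∈ lst h n, χ s = χ 0 := by
  induction n with
  | zero =>
    intro s hs
    have : s = 0 := by simpa [lst] using hs
    rw [this]
  | succ n ih =>
    have h1 := Nat.find_spec (prd_exists h (n, lst h n))
    change prd χ _ (fnd h (n, lst h n)) = true at h1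
    unfold prd at h1
    rw [(chk_length χ (lst h n)).2 ih, Bool.not_true, Bool.false_or, Bool.and_eq_true] at h1
    rw [lst_succ]
    exact (chk_length _ _).1 h1.2

theorem lst_lt {χ : ℕ → ℕ} (h : Sublinear p χ) (n : ℕ) :
    (lst h n).sum < fnd h (n, lst h n) := by
  have h1 := Nat.find_spec (prd_exists h (n, lst h n))
  change prd χ _ (fnd h (n, lst h n)) = true at h1
  unfold prd at h1
  rw [(chk_length χ (lst h n)).2 (lst_spec h n), Bool.not_true, Bool.false_or,
    Bool.and_eq_true, decide_eq_true_iff] at h1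
  exact h1.1

theorem zero_mem {χ : ℕ → ℕ} (h : Sublinear p χ) (n : ℕ) : 0 ∈ lst h n := by
  induction n with
  | zero => simp [lst]
  | succ n ih =>
    rw [lst_succ]
    have := mem_nxt (n := n) (y := fnd h (n, lst h n)) (b := 0) ih (by omega)
    simpa using this

/-- **Hindman's theorem for computable colourings of sublinear degree has computable
solutions.** -/
theorem result (p : ℕ) [Fact p.Prime] (χ : ℕ → ℕ) (hχ : Computable χ)
    (h : ∀ ε : ℝ, 0 < ε → ∀ M₀ : ℕ, ∃ M s D : ℕ, M₀ ≤ M ∧ (s * D : ℝ) ≤ ε * M ∧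
      ∃ P : Fin s → MvPolynomial (Fin M) (ZMod p), (∀ j, (P j).totalDegree ≤ D) ∧
        ∀ m n : ℕ, m < p ^ M → n < p ^ M →
          (∀ j, eval (fun i : Fin M => ((m / p ^ (i : ℕ) % p : ℕ) : ZMod p)) (P j) =
            eval (fun i : Fin M => ((n / p ^ (i : ℕ) % p : ℕ) : ZMod p)) (P j)) →
          χ m = χ n) :
    ∃ x : ℕ → ℕ, Computable x ∧ StrictMono x ∧ 0 < x 0 ∧
      ∀ (F : Finset ℕ) (a : ℕ → ℕ), (∀ i ∈ F, a i ≤ i + 1) →
        χ (∑ i ∈ F, a i * x i) = χ 0 := by
  have h' : Sublinear p χ := h
  have hx : ∀ n, (lst h' n).sum < fnd h' (n, lst h' n) := lst_lt h'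
  refine ⟨fun n => fnd h' (n, lst h' n), ?_, ?_, ?_, ?_⟩
  · exact (fnd_computable hχ h').comp (Computable.id.pair (lst_computable hχ h'))
  · refine strictMono_nat_of_lt_succ fun n => ?_
    refine lt_of_le_of_lt ?_ (hx (n + 1))
    have hm : fnd h' (n, lst h' n) ∈ lst h' (n + 1) := by
      have := mem_nxt (n := n) (y := fnd h' (n, lst h' n)) (b := 1) (zero_mem h' n)
        (by omega)
      rw [lst_succ]
      simpa using this
    exact List.single_le_sum (fun x _ => Nat.zero_le x) _ hm
  · exact lt_of_le_of_lt (Nat.zero_le _) (hx 0)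
  · intro F a ha
    have key : ∀ n, ∀ F : Finset ℕ, F ⊆ Finset.range n → (∀ i ∈ F, a i ≤ i + 1) →
        ∑ i ∈ F, a i * fnd h' (i, lst h' i) ∈ lst h' n := by
      intro n
      induction n with
      | zero =>
        intro F hF _
        have : F = ∅ := by simpa using hF
        rw [this]
        simpa using zero_mem h' 0
      | succ n ih =>
        intro F hF haF
        rw [lst_succ]
        have h1 : F.erase n ⊆ Finset.range n := by
          intro i hi
          have h2 := Finset.mem_range.1 (hF (Finset.mem_of_mem_erase hi))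
          have h3 := Finset.ne_of_mem_erase hi
          exact Finset.mem_range.2 (by omega)
        have h4 := ih (F.erase n) h1 fun i hi => haF i (Finset.mem_of_mem_erase hi)
        by_cases hn : n ∈ F
        · rw [← Finset.sum_erase_add _ _ hn]
          exact mem_nxt h4 (by have := haF n hn; omega)
        · rw [Finset.erase_eq_of_notMem hn] at h4
          have := mem_nxt (n := n) (y := fnd h' (n, lst h' n)) (b := 0) h4 (by omega)
          simpa using this
    obtain ⟨n, hn⟩ : ∃ n, F ⊆ Finset.range n := ⟨F.sup id + 1, fun i hi =>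
      Finset.mem_range.2 (Nat.lt_succ_of_le (Finset.le_sup (f := id) hi))⟩
    exact lst_spec h' n _ (key n F hn ha)

end Pool.Agent.Results.MP_69fea5_lc.SublinearDegree
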